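import Pool.Agent.Lib.P5135s.Main

set_option autoImplicit false
set_option linter.unusedSectionVars false

/-! Graphs whose vertex set is covered by `α(G)` cliques: extremal graphs for `Γ_t ≤ 2 Γ`. -/

namespace Pool.Agent.Lib.P5135s

open Pool.Agent.Lib.P5135a5

variable {V : Type} [Fintype V] [DecidableEq V]

/-- If `im = α` and the vertex set is covered by `α` cliques, it has a clique partition with a
transversal induced matching. -/
theorem cliquePartition_of_colorable {G : SimpleGraph V} (hG : Gᶜ.Colorable G.indepNum)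
    (h : inducedMatchingNum G = G.indepNum) : CliquePartition G G.indepNum := by
  obtain ⟨S, hS, hcard⟩ := exists_inducedMatchingNum G
  rw [h] at hcard
  obtain ⟨a, b, hab, hne⟩ := exists_ends G S hS _ hcard
  obtain ⟨f⟩ := hG
  let c : V → Fin G.indepNum := fun v => f v
  have hc : ∀ u v, u ≠ v → c u = c v → G.Adj u v := by
    intro u v huv hcuv
    by_contra hadj
    exact f.valid (v := u) (w := v) ⟨huv, hadj⟩ hcuv
  have hinj : Function.Injective (fun i => c (a i)) := by
    intro i j hij
    by_contra hne'
    exact (hne i j hne').2.1 (hc _ _ (hne i j hne').1 hij)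
  have hsurj : Function.Surjective (fun i => c (a i)) := Finite.surjective_of_injective hinj
  have hcb : ∀ i, c (b i) = c (a i) := by
    intro i
    obtain ⟨j, hj⟩ := hsurj (c (b i))
    simp only at hj
    by_cases hij : j = i
    · rw [← hj, hij]
    · exfalso
      by_cases hbe : b i = a j
      · have := hab i
        rw [hbe] at this
        exact (hne j i hij).2.1 this.symm
      · exact (hne j i hij).2.2.1 (hc _ _ (fun h => hbe h.symm) hj)
  let e : Fin G.indepNum ≃ Fin G.indepNum := Equiv.ofBijective _ ⟨hinj, hsurj⟩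
  have he : ∀ i, e i = c (a i) := fun i => rfl
  refine ⟨a, b, fun v => e.symm (c v), ?_, ?_, ?_⟩
  · intro u v huv h'
    exact hc u v huv (e.symm.injective h')
  · intro i
    refine ⟨?_, ?_, (hab i).ne⟩
    · change e.symm (c (a i)) = i
      rw [← he, Equiv.symm_apply_apply]
    · change e.symm (c (b i)) = i
      rw [hcb, ← he, Equiv.symm_apply_apply]
  · intro i j hij
    exact (hne i j hij).2

omit [Fintype V] [DecidableEq V] in
theorem colorable_of_cliquePartition {G : SimpleGraph V} {k : ℕ} (h : CliquePartition G k) :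
    Gᶜ.Colorable k := by
  obtain ⟨a, b, c, h1, h2, h3⟩ := h
  refine ⟨SimpleGraph.Coloring.mk c ?_⟩
  intro u v huv hc
  exact huv.2 (h1 u v huv.1 hc)

theorem indepNum_le_chromaticNumber (G : SimpleGraph V) :
    (G.indepNum : ℕ∞) ≤ Gᶜ.chromaticNumber := by
  obtain ⟨s, hs⟩ := G.exists_isNIndepSet_indepNum
  rw [← hs.card_eq]
  apply SimpleGraph.IsClique.card_le_chromaticNumber
  intro x hx y hy hxy
  exact ⟨hxy, hs.isIndepSet hx hy hxy⟩

theorem colorable_of_perf {G : SimpleGraph V} (hG : Perf G) : Gᶜ.Colorable G.indepNum := by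
  obtain ⟨f, hf1, hf2⟩ := perf_compl hG Finset.univ
  rw [om_univ] at hf1
  refine ⟨SimpleGraph.Coloring.mk (fun v => (⟨f v, hf1 v (Finset.mem_univ v)⟩ : Fin G.indepNum)) ?_⟩
  intro u v huv hc
  exact hf2 u (Finset.mem_univ u) v (Finset.mem_univ v) huv (congrArg Fin.val hc)

theorem chromaticNumber_eq_iff (G : SimpleGraph V) :
    Gᶜ.chromaticNumber = G.indepNum ↔ Gᶜ.Colorable G.indepNum := by
  rw [← SimpleGraph.chromaticNumber_le_iff_colorable]
  exact ⟨fun h => h.le, fun h => le_antisymm h (indepNum_le_chromaticNumber G)⟩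

/-- The extremal graphs whose vertex set is covered by `α` cliques. -/
theorem cover_iff {G : SimpleGraph V} (hv : ∀ v, ∃ w, G.Adj v w) :
    upperTotalDom G = 2 * upperDom G ∧ Gᶜ.chromaticNumber = G.indepNum ↔
      upperDom G = G.indepNum ∧ ∃ k, CliquePartition G k := by
  rw [characterization G hv, chromaticNumber_eq_iff]
  have h1 := indepNum_le_upperDom G
  have h2 := inducedMatchingNum_le_indepNum G
  constructor
  · rintro ⟨h, hc⟩
    exact ⟨by omega, _, cliquePartition_of_colorable hc (by omega)⟩
  · rintro ⟨h, k, hk⟩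
    have h3 := le_of_cliquePartition hk
    have h4 : k = G.indepNum := by omega
    refine ⟨by omega, ?_⟩
    rw [← h4]
    exact colorable_of_cliquePartition hk

/-- The graphs with `im = α` and clique cover number `α`. -/
theorem cover_im {G : SimpleGraph V} :
    (∃ k, CliquePartition G k) ↔
      inducedMatchingNum G = G.indepNum ∧ Gᶜ.chromaticNumber = G.indepNum := by
  rw [chromaticNumber_eq_iff]
  have h2 := inducedMatchingNum_le_indepNum G
  constructor
  · rintro ⟨k, hk⟩
    have h3 := le_of_cliquePartition hk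
    have h4 : k = G.indepNum := by omega
    refine ⟨by omega, ?_⟩
    rw [← h4]
    exact colorable_of_cliquePartition hk
  · rintro ⟨h, hc⟩
    exact ⟨_, cliquePartition_of_colorable hc h⟩

end Pool.Agent.Lib.P5135s
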