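import Pool.Agent.Lib.P5135s.Perf
import Pool.Agent.Lib.P5135a5.Main

set_option autoImplicit false
set_option linter.unusedSectionVars false

/-! Upper domination in strongly perfect graphs, and clique partitions with a transversal induced
matching. -/

namespace Pool.Agent.Lib.P5135s

open Pool.Agent.Lib.P5135a5

/-- `G` is strongly perfect: every nonempty induced subgraph has an independent set that meets all
its maximal cliques. -/
def StronglyPerfect {V : Type} (G : SimpleGraph V) : Prop :=
  ∀ U : Finset V, U.Nonempty → ∃ I : Finset V, I ⊆ U ∧ (∀ x ∈ I, ∀ y ∈ I, ¬ G.Adj x y) ∧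
    ∀ K : Finset V, Maximal (fun L : Finset V => L ⊆ U ∧ ∀ x ∈ L, ∀ y ∈ L, x ≠ y → G.Adj x y) K →
      ∃ x ∈ K, x ∈ I

/-- The vertex set has a partition into cliques with a transversal induced matching: into cliques
`Q_i` (`i < k`) containing edges `a_i b_i` such that no edge joins `{a_i, b_i}` to `{a_j, b_j}`
for `i ≠ j`. -/
def CliquePartition {V : Type} (G : SimpleGraph V) (k : ℕ) : Prop :=
  ∃ (a b : Fin k → V) (c : V → Fin k),
    (∀ u v, u ≠ v → c u = c v → G.Adj u v) ∧ (∀ i, c (a i) = i ∧ c (b i) = i ∧ a i ≠ b i) ∧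
    ∀ i j, i ≠ j → ¬ G.Adj (a i) (a j) ∧ ¬ G.Adj (a i) (b j) ∧ ¬ G.Adj (b i) (b j)

variable {V : Type} [Fintype V] [DecidableEq V]

theorem clq_compl_iff (G : SimpleGraph V) (I : Finset V) :
    Clq Gᶜ I ↔ ∀ x ∈ I, ∀ y ∈ I, ¬ G.Adj x y := by
  constructor
  · intro h x hx y hy hxy
    exact (h x hx y hy hxy.ne).2 hxy
  · intro h x hx y hy hxy
    exact ⟨hxy, h x hx y hy⟩

theorem om_univ (G : SimpleGraph V) : om Gᶜ Finset.univ = G.indepNum := by
  apply le_antisymm
  · obtain ⟨K, h1, _, h3⟩ := exists_om Gᶜ Finset.univ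
    rw [← h3]
    have : G.IsIndepSet (K : Set V) := by
      intro x hx y hy hxy
      exact (h1 x hx y hy hxy).2
    exact this.card_le_indepNum
  · obtain ⟨s, hs⟩ := G.exists_isNIndepSet_indepNum
    rw [← hs.card_eq]
    apply card_le_om _ (Finset.subset_univ s)
    intro x hx y hy hxy
    exact ⟨hxy, hs.isIndepSet hx hy hxy⟩

theorem perf_of_stronglyPerfect {G : SimpleGraph V} (h : StronglyPerfect G) : Perf G := by
  classical
  intro U
  induction U using Finset.strongInduction with
  | H U ih =>
  rcases U.eq_empty_or_nonempty with rfl | hne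
  · exact ⟨fun _ => 0, by simp, by simp⟩
  obtain ⟨I, hIU, hI, hmeet⟩ := h U hne
  have hmeet' : ∀ K, Clq G K → K ⊆ U → K.card = om G U → ∃ x ∈ K, x ∈ I := by
    intro K hK hKU hKc
    apply hmeet K
    refine ⟨⟨hKU, hK⟩, ?_⟩
    intro L hL hKL
    have h1 := card_le_om hL.2 hL.1
    rw [← hKc] at h1
    exact (Finset.eq_of_subset_of_card_le hKL h1).ge
  have hlt : om G (U \ I) + 1 ≤ om G U := by
    obtain ⟨K, h1, h2, h3⟩ := exists_om G (U \ I)
    by_contra hcon
    have h4 := om_mono G (Finset.sdiff_subset : U \ I ⊆ U)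
    have h5 : K.card = om G U := by omega
    obtain ⟨x, hx, hxI⟩ := hmeet' K h1 (h2.trans Finset.sdiff_subset) h5
    exact (Finset.mem_sdiff.mp (h2 hx)).2 hxI
  have hIne : I.Nonempty := by
    obtain ⟨K, h1, h2, h3⟩ := exists_om G U
    obtain ⟨x, _, hxI⟩ := hmeet' K h1 h2 h3
    exact ⟨x, hxI⟩
  have hss : U \ I ⊂ U := Finset.sdiff_ssubset hIU hIne
  exact ((ih _ hss).add ((clq_compl_iff G I).mpr hI)).mono hlt

/-- In a strongly perfect graph the upper domination number is the independence number. -/
theorem upperDom_le_indepNum {G : SimpleGraph V} (h : StronglyPerfect G) :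
    upperDom G ≤ G.indepNum := by
  classical
  obtain ⟨D, hD, hDc⟩ := exists_upperDom G
  rw [← hDc]
  -- vertices of `D` with a neighbour in `D`
  set Y := D.filter (fun y => ∃ z ∈ D, G.Adj y z) with hY
  have hYD : Y ⊆ D := Finset.filter_subset _ _
  have hp : ∀ y : V, ∃ p, y ∈ Y → p ∉ D ∧ G.Adj p y ∧ ∀ u ∈ D, G.Adj p u → u = y := by
    intro y
    by_cases hy : y ∈ Y
    · obtain ⟨hyD, z, hz, hyz⟩ := Finset.mem_filter.mp hy
      have hnd : ¬ IsDominating G (D.erase y) := by
        intro hdom
        have := hD.le_of_le hdom (Finset.erase_subset y D) hyD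
        exact Finset.notMem_erase y D this
      unfold IsDominating at hnd
      push Not at hnd
      obtain ⟨p, hp1, hp2⟩ := hnd
      have hpy : p ≠ y := by
        rintro rfl
        exact hp2 z (Finset.mem_erase.mpr ⟨hyz.ne', hz⟩) hyz
      have hpD : p ∉ D := fun h => hp1 (Finset.mem_erase.mpr ⟨hpy, h⟩)
      obtain ⟨u, hu, hpu⟩ := hD.prop p hpD
      have key : ∀ u ∈ D, G.Adj p u → u = y := by
        intro u hu hpu
        by_contra hne
        exact hp2 u (Finset.mem_erase.mpr ⟨hne, hu⟩) hpu
      refine ⟨p, fun _ => ⟨hpD, ?_, key⟩⟩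
      rw [← key u hu hpu]
      exact hpu
    · exact ⟨y, fun h => absurd h hy⟩
  choose p hp using hp
  rcases Y.eq_empty_or_nonempty with hYe | hYne
  · -- `D` is independent
    have : G.IsIndepSet (D : Set V) := by
      intro x hx y hy _ hxy
      have : x ∈ Y := Finset.mem_filter.mpr ⟨hx, y, hy, hxy⟩
      rw [hYe] at this
      exact Finset.notMem_empty x this
    exact this.card_le_indepNum
  set U := Y ∪ Y.image p with hU
  obtain ⟨I, hIU, hI, hmeet⟩ := h U ⟨_, Finset.mem_union_left _ hYne.choose_spec⟩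
  -- each pair `{y, p y}` is a maximal clique of the subgraph induced on `U`
  have hpair : ∀ y ∈ Y, y ∈ I ∨ p y ∈ I := by
    intro y hy
    obtain ⟨h1, h2, h3⟩ := hp y hy
    have hmax : Maximal (fun L : Finset V => L ⊆ U ∧ ∀ x ∈ L, ∀ y ∈ L, x ≠ y → G.Adj x y)
        {y, p y} := by
      refine ⟨⟨?_, ?_⟩, ?_⟩
      · intro x hx
        rw [Finset.mem_insert, Finset.mem_singleton] at hx
        rcases hx with rfl | rfl
        · exact Finset.mem_union_left _ hy
        · exact Finset.mem_union_right _ (Finset.mem_image_of_mem p hy)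
      · intro x hx z hz hxz
        rw [Finset.mem_insert, Finset.mem_singleton] at hx hz
        rcases hx with rfl | rfl <;> rcases hz with rfl | rfl
        · exact absurd rfl hxz
        · exact h2.symm
        · exact h2
        · exact absurd rfl hxz
      · rintro L ⟨hLU, hL⟩ hKL x hx
        have hyL : y ∈ L := hKL (Finset.mem_insert_self y _)
        have hpL : p y ∈ L := hKL (Finset.mem_insert_of_mem (Finset.mem_singleton_self _))
        rw [Finset.mem_insert, Finset.mem_singleton]
        by_contra hcon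
        push Not at hcon
        have a1 := hL x hx y hyL hcon.1
        have a2 := hL (p y) hpL x hx hcon.2.symm
        rcases Finset.mem_union.mp (hLU hx) with hxY | hxP
        · exact hcon.1 (h3 x (hYD hxY) a2)
        · obtain ⟨y', hy', rfl⟩ := Finset.mem_image.mp hxP
          have := (hp y' hy').2.2 y (hYD hy) a1
          rw [this] at hcon
          exact hcon.2 rfl
    obtain ⟨x, hx, hxI⟩ := hmeet _ hmax
    rw [Finset.mem_insert, Finset.mem_singleton] at hx
    rcases hx with rfl | rfl
    · exact Or.inl hxI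
    · exact Or.inr hxI
  -- the independent set
  have hdisj : Disjoint I (D \ Y) := by
    rw [Finset.disjoint_left]
    intro x hx hx'
    obtain ⟨hx1, hx2⟩ := Finset.mem_sdiff.mp hx'
    rcases Finset.mem_union.mp (hIU hx) with hxY | hxP
    · exact hx2 hxY
    · obtain ⟨y', hy', rfl⟩ := Finset.mem_image.mp hxP
      exact (hp y' hy').1 hx1
  have hind : G.IsIndepSet ((I ∪ (D \ Y) : Finset V) : Set V) := by
    have hZ : ∀ z ∈ D \ Y, ∀ x ∈ U, ¬ G.Adj x z := by
      intro z hz x hx hxz
      obtain ⟨hz1, hz2⟩ := Finset.mem_sdiff.mp hz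
      rcases Finset.mem_union.mp hx with hxY | hxP
      · exact hz2 (Finset.mem_filter.mpr ⟨hz1, x, hYD hxY, hxz.symm⟩)
      · obtain ⟨y', hy', rfl⟩ := Finset.mem_image.mp hxP
        have := (hp y' hy').2.2 z hz1 hxz
        rw [this] at hz2
        exact hz2 hy'
    intro x hx y hy _ hxy
    rw [Finset.mem_coe, Finset.mem_union] at hx hy
    rcases hx with hx | hx <;> rcases hy with hy | hy
    · exact hI x hx y hy hxy
    · exact hZ y hy x (hIU hx) hxy
    · exact hZ x hx y (hIU hy) hxy.symm
    · obtain ⟨hx1, hx2⟩ := Finset.mem_sdiff.mp hx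
      exact hx2 (Finset.mem_filter.mpr ⟨hx1, y, (Finset.mem_sdiff.mp hy).1, hxy⟩)
  have hYI : Y.card ≤ I.card := by
    apply Finset.card_le_card_of_injOn (fun y => if y ∈ I then y else p y)
    · intro y hy
      rw [Finset.mem_coe]
      by_cases hyI : y ∈ I
      · simp [hyI]
      · simp only [hyI, if_false]
        rcases hpair y hy with h | h
        · exact absurd h hyI
        · exact h
    · intro y hy z hz hyz
      simp only at hyz
      rw [Finset.mem_coe] at hy hz
      by_cases hyI : y ∈ I <;> by_cases hzI : z ∈ I <;> simp only [hyI, hzI, if_true, if_false] at hyz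
      · exact hyz
      · exfalso
        apply (hp z hz).1
        rw [← hyz]
        exact hYD hy
      · exfalso
        apply (hp y hy).1
        rw [hyz]
        exact hYD hz
      · have h1 := (hp y hy).2.1
        rw [hyz] at h1
        exact (hp z hz).2.2 y (hYD hy) h1
  have h6 := hind.card_le_indepNum
  rw [Finset.card_union_of_disjoint hdisj] at h6
  have h7 : (D \ Y).card + Y.card = D.card := Finset.card_sdiff_add_card_eq_card hYD
  omega

omit [DecidableEq V] in
/-- `α(G) ≤ Γ(G)`. -/
theorem indepNum_le_upperDom (G : SimpleGraph V) : G.indepNum ≤ upperDom G := by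
  obtain ⟨s, hs⟩ := G.exists_isNIndepSet_indepNum
  rw [← hs.card_eq]
  apply indep_card_le G s
  intro x hx y hy hxy
  exact hs.isIndepSet hx hy hxy.ne hxy

omit [DecidableEq V] in
/-- `im(G) ≤ α(G)`. -/
theorem inducedMatchingNum_le_indepNum (G : SimpleGraph V) :
    inducedMatchingNum G ≤ G.indepNum := by
  obtain ⟨S, hS, hcard⟩ := exists_inducedMatchingNum G
  obtain ⟨C, _, _, hC, hle⟩ := exists_choice G S hS (fun _ => True)
    (fun _ _ _ _ _ => Or.inl trivial)
  have : G.IsIndepSet (C : Set V) := fun x hx y hy _ => hC x hx y hy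
  have := this.card_le_indepNum
  omega

omit [DecidableEq V] in
/-- The edges of an induced matching. -/
theorem exists_ends (G : SimpleGraph V) (S : Finset V) (hS : IsInducedMatchingSet G S) (k : ℕ)
    (hcard : S.card = 2 * k) :
    ∃ (a b : Fin k → V), (∀ i, G.Adj (a i) (b i)) ∧
      (∀ i j, i ≠ j → a i ≠ a j ∧ ¬ G.Adj (a i) (a j) ∧ ¬ G.Adj (a i) (b j) ∧
        ¬ G.Adj (b i) (b j)) := by
  classical
  obtain ⟨C, hCS, _, hCI, hle⟩ := exists_choice G S hS (fun _ => True)
    (fun _ _ _ _ _ => Or.inl trivial)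
  have hp : ∀ v : V, ∃ w, v ∈ S → (w ∈ S ∧ G.Adj v w) ∧ ∀ z, z ∈ S ∧ G.Adj v z → z = w := by
    intro v
    by_cases hv : v ∈ S
    · obtain ⟨w, h1, h2⟩ := hS v hv
      exact ⟨w, fun _ => ⟨h1, h2⟩⟩
    · exact ⟨v, fun h => absurd h hv⟩
  choose π hπ using hp
  have hππ : ∀ v ∈ S, π (π v) = v := by
    intro v hv
    obtain ⟨⟨h1, h2⟩, _⟩ := hπ v hv
    exact ((hπ _ h1).2 v ⟨hv, h2.symm⟩).symm
  have hπinj : ∀ v ∈ S, ∀ w ∈ S, π v = π w → v = w := by
    intro v hv w hw h
    rw [← hππ v hv, ← hππ w hw, h]
  have hdisj : Disjoint C (C.image π) := by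
    rw [Finset.disjoint_left]
    intro x hx hx'
    obtain ⟨y, hy, rfl⟩ := Finset.mem_image.mp hx'
    exact hCI y hy _ hx (hπ y (hCS hy)).1.2
  have himg : (C.image π).card = C.card :=
    Finset.card_image_of_injOn (fun v hv w hw h => hπinj v (hCS hv) w (hCS hw) h)
  have hsub : C ∪ C.image π ⊆ S := by
    intro x hx
    rcases Finset.mem_union.mp hx with h | h
    · exact hCS h
    · obtain ⟨y, hy, rfl⟩ := Finset.mem_image.mp h
      exact (hπ y (hCS hy)).1.1
  have hCcard : C.card = k := by
    have h1 := Finset.card_le_card hsub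
    rw [Finset.card_union_of_disjoint hdisj, himg] at h1
    omega
  let e : Fin k ≃ C := (finCongr hCcard.symm).trans C.equivFin.symm
  have hedge : ∀ v w, v ∈ S → w ∈ S → G.Adj v w → π v = w := by
    intro v w hv hw hvw
    exact ((hπ v hv).2 w ⟨hw, hvw⟩).symm
  refine ⟨fun i => e i, fun i => π (e i), fun i => (hπ _ (hCS (e i).2)).1.2, ?_⟩
  intro i j hij
  have hiS := hCS (e i).2
  have hjS := hCS (e j).2
  have hne : (e i : V) ≠ e j := fun h => hij (e.injective (Subtype.ext h))
  refine ⟨hne, hCI _ (e i).2 _ (e j).2, ?_, ?_⟩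
  · intro h
    have h3 := hedge _ _ hiS (hπ _ hjS).1.1 h
    exact hne (hπinj _ hiS _ hjS h3)
  · intro h
    have h3 := hedge _ _ (hπ _ hiS).1.1 (hπ _ hjS).1.1 h
    rw [hππ _ hiS] at h3
    have h4 := (hπ _ hjS).1.2
    rw [← h3] at h4
    exact hCI _ (e j).2 _ (e i).2 h4

/-- In a perfect graph with `im = α` the vertex set has such a partition. -/
theorem cliquePartition_of_eq {G : SimpleGraph V} (hG : Perf G)
    (h : inducedMatchingNum G = G.indepNum) : CliquePartition G G.indepNum := by
  obtain ⟨S, hS, hcard⟩ := exists_inducedMatchingNum G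
  rw [h] at hcard
  obtain ⟨a, b, hab, hne⟩ := exists_ends G S hS _ hcard
  obtain ⟨f, hf1, hf2⟩ := perf_compl hG Finset.univ
  rw [om_univ] at hf1
  let c : V → Fin G.indepNum := fun v => ⟨f v, hf1 v (Finset.mem_univ v)⟩
  have hc : ∀ u v, u ≠ v → c u = c v → G.Adj u v := by
    intro u v huv hcuv
    by_contra hadj
    exact hf2 u (Finset.mem_univ u) v (Finset.mem_univ v) ⟨huv, hadj⟩ (congrArg Fin.val hcuv)
  have hinj : Function.Injective (fun i => c (a i)) := by
    intro i j hij
    by_contra hne'
    exact (hne i j hne').2.1 (hc _ _ (hne i j hne').1 hij)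
  have hsurj : Function.Surjective (fun i => c (a i)) := Finite.surjective_of_injective hinj
  have hcb : ∀ i, c (b i) = c (a i) := by
    intro i
    obtain ⟨j, hj⟩ := hsurj (c (b i))
    simp only at hj
    by_cases hij : j = i
    · rw [← hj, hij]
    · exfalso
      by_cases hbe : b i = a j
      · have := hab i
        rw [hbe] at this
        exact (hne j i hij).2.1 this.symm
      · exact (hne j i hij).2.2.1 (hc _ _ (fun h => hbe h.symm) hj)
  let e : Fin G.indepNum ≃ Fin G.indepNum := Equiv.ofBijective _ ⟨hinj, hsurj⟩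
  have he : ∀ i, e i = c (a i) := fun i => rfl
  refine ⟨a, b, fun v => e.symm (c v), ?_, ?_, ?_⟩
  · intro u v huv h'
    exact hc u v huv (e.symm.injective h')
  · intro i
    refine ⟨?_, ?_, (hab i).ne⟩
    · change e.symm (c (a i)) = i
      rw [← he, Equiv.symm_apply_apply]
    · change e.symm (c (b i)) = i
      rw [hcb, ← he, Equiv.symm_apply_apply]
  · intro i j hij
    exact (hne i j hij).2

omit [DecidableEq V] in
theorem le_of_cliquePartition {G : SimpleGraph V} {k : ℕ} (h : CliquePartition G k) :
    k ≤ inducedMatchingNum G ∧ G.indepNum ≤ k := by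
  classical
  obtain ⟨a, b, c, h1, h2, h3⟩ := h
  have hab : ∀ i, G.Adj (a i) (b i) := fun i =>
    h1 _ _ (h2 i).2.2 ((h2 i).1.trans (h2 i).2.1.symm)
  constructor
  · have ha : Function.Injective a := by
      intro i j hij
      rw [← (h2 i).1, ← (h2 j).1, hij]
    have hb : Function.Injective b := by
      intro i j hij
      rw [← (h2 i).2.1, ← (h2 j).2.1, hij]
    have hab' : ∀ i j, a i ≠ b j := by
      intro i j hij
      have : i = j := by rw [← (h2 i).1, ← (h2 j).2.1, hij]
      subst this
      exact (hab i).ne hij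
    have hcardS : (Finset.univ.image a ∪ Finset.univ.image b).card = 2 * k := by
      rw [Finset.card_union_of_disjoint, Finset.card_image_of_injective _ ha,
        Finset.card_image_of_injective _ hb, Finset.card_univ, Fintype.card_fin]
      · ring
      · rw [Finset.disjoint_left]
        intro x hx hx'
        obtain ⟨i, _, rfl⟩ := Finset.mem_image.mp hx
        obtain ⟨j, _, hj⟩ := Finset.mem_image.mp hx'
        exact hab' i j hj.symm
    have hIM : IsInducedMatchingSet G (Finset.univ.image a ∪ Finset.univ.image b) := by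
      intro v hv
      rcases Finset.mem_union.mp hv with hv | hv
      · obtain ⟨i, _, rfl⟩ := Finset.mem_image.mp hv
        refine ⟨b i, ⟨?_, hab i⟩, ?_⟩
        · rw [Finset.mem_union]
          exact Or.inr (Finset.mem_image_of_mem _ (Finset.mem_univ i))
        · rintro y ⟨hy1, hy2⟩
          rcases Finset.mem_union.mp hy1 with hy | hy
          · obtain ⟨j, _, rfl⟩ := Finset.mem_image.mp hy
            by_cases hij : i = j
            · subst hij
              exact absurd hy2 (fun h => h.ne rfl)
            · exact absurd hy2 (h3 i j hij).1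
          · obtain ⟨j, _, rfl⟩ := Finset.mem_image.mp hy
            by_cases hij : i = j
            · rw [hij]
            · exact absurd hy2 (h3 i j hij).2.1
      · obtain ⟨i, _, rfl⟩ := Finset.mem_image.mp hv
        refine ⟨a i, ⟨?_, (hab i).symm⟩, ?_⟩
        · rw [Finset.mem_union]
          exact Or.inl (Finset.mem_image_of_mem _ (Finset.mem_univ i))
        · rintro y ⟨hy1, hy2⟩
          rcases Finset.mem_union.mp hy1 with hy | hy
          · obtain ⟨j, _, rfl⟩ := Finset.mem_image.mp hy
            by_cases hij : j = i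
            · rw [hij]
            · exact absurd hy2.symm (h3 j i hij).2.1
          · obtain ⟨j, _, rfl⟩ := Finset.mem_image.mp hy
            by_cases hij : i = j
            · subst hij
              exact absurd hy2 (fun h => h.ne rfl)
            · exact absurd hy2 (h3 i j hij).2.2
    exact card_le_inducedMatchingNum G hIM hcardS
  · obtain ⟨s, hs⟩ := G.exists_isNIndepSet_indepNum
    rw [← hs.card_eq]
    have h5 : s.card ≤ (Finset.univ : Finset (Fin k)).card := by
      apply Finset.card_le_card_of_injOn c (fun _ _ => Finset.mem_coe.mpr (Finset.mem_univ _))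
      intro x hx y hy hxy
      by_contra hne
      exact hs.isIndepSet hx hy hne (h1 x y hne hxy)
    rwa [Finset.card_univ, Fintype.card_fin] at h5

/-- Perfect graphs. -/
theorem perfect_iff {G : SimpleGraph V} (hG : Perf G) (hv : ∀ v, ∃ w, G.Adj v w) :
    upperTotalDom G = 2 * upperDom G ↔
      upperDom G = G.indepNum ∧ ∃ k, CliquePartition G k := by
  rw [characterization G hv]
  have h1 := indepNum_le_upperDom G
  have h2 := inducedMatchingNum_le_indepNum G
  constructor
  · intro h
    exact ⟨by omega, _, cliquePartition_of_eq hG (by omega)⟩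
  · rintro ⟨h, k, hk⟩
    have := le_of_cliquePartition hk
    omega

/-- Strongly perfect graphs. -/
theorem stronglyPerfect_tfae {G : SimpleGraph V} (hG : StronglyPerfect G)
    (hv : ∀ v, ∃ w, G.Adj v w) :
    List.TFAE [upperTotalDom G = 2 * upperDom G, inducedMatchingNum G = G.indepNum,
      ∃ k, CliquePartition G k] := by
  have h1 := indepNum_le_upperDom G
  have h2 := inducedMatchingNum_le_indepNum G
  have h3 := upperDom_le_indepNum hG
  tfae_have 1 ↔ 2 := by
    rw [characterization G hv]
    constructor <;> intro h <;> omega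
  tfae_have 2 → 3 := fun h => ⟨_, cliquePartition_of_eq (perf_of_stronglyPerfect hG) h⟩
  tfae_have 3 → 2 := by
    rintro ⟨k, hk⟩
    have := le_of_cliquePartition hk
    omega
  tfae_finish

end Pool.Agent.Lib.P5135s
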