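import Mathlib

set_option autoImplicit false
set_option linter.unusedSectionVars false

/-! The weak perfect graph theorem (Lovasz) for vertex subsets of a finite graph, after
Gasparian. -/

namespace Pool.Agent.Lib.P5135s

variable {V : Type} [Fintype V] [DecidableEq V]

/-- `K` is a clique. -/
def Clq (G : SimpleGraph V) (K : Finset V) : Prop := ∀ x ∈ K, ∀ y ∈ K, x ≠ y → G.Adj x y

theorem clq_empty (G : SimpleGraph V) : Clq G ∅ := fun x hx => absurd hx (Finset.notMem_empty x)

theorem Clq.mono {G : SimpleGraph V} {K L : Finset V} (h : Clq G L) (hKL : K ⊆ L) : Clq G K :=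
  fun x hx y hy hxy => h x (hKL hx) y (hKL hy) hxy

open Classical in
/-- Clique number of the subgraph induced on `U`. -/
noncomputable def om (G : SimpleGraph V) (U : Finset V) : ℕ :=
  ((U.powerset).filter (Clq G)).sup Finset.card

theorem card_le_om {G : SimpleGraph V} {U K : Finset V} (hK : Clq G K) (hKU : K ⊆ U) :
    K.card ≤ om G U := by
  classical
  unfold om
  exact Finset.le_sup (f := Finset.card)
    (Finset.mem_filter.mpr ⟨Finset.mem_powerset.mpr hKU, hK⟩)

theorem exists_om (G : SimpleGraph V) (U : Finset V) :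
    ∃ K, Clq G K ∧ K ⊆ U ∧ K.card = om G U := by
  classical
  have hne : ((U.powerset).filter (Clq G)).Nonempty :=
    ⟨∅, Finset.mem_filter.mpr ⟨Finset.empty_mem_powerset U, clq_empty G⟩⟩
  obtain ⟨K, hK, h⟩ := Finset.exists_mem_eq_sup _ hne Finset.card
  obtain ⟨h1, h2⟩ := Finset.mem_filter.mp hK
  exact ⟨K, h2, Finset.mem_powerset.mp h1, h.symm⟩

theorem om_mono (G : SimpleGraph V) {U W : Finset V} (h : U ⊆ W) : om G U ≤ om G W := by
  obtain ⟨K, h1, h2, h3⟩ := exists_om G U
  rw [← h3]
  exact card_le_om h1 (h2.trans h)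

theorem om_pos (G : SimpleGraph V) {U : Finset V} (h : U.Nonempty) : 1 ≤ om G U := by
  obtain ⟨x, hx⟩ := h
  have : Clq G {x} := by
    intro y hy z hz hyz
    rw [Finset.mem_singleton] at hy hz
    exact absurd (hy.trans hz.symm) hyz
  have h2 := card_le_om this (Finset.singleton_subset_iff.mpr hx)
  simpa using h2

/-- `f` properly colours the subgraph induced on `U` with the colours below `k`. -/
def Col (G : SimpleGraph V) (U : Finset V) (k : ℕ) : Prop :=
  ∃ f : V → ℕ, (∀ u ∈ U, f u < k) ∧ ∀ u ∈ U, ∀ v ∈ U, G.Adj u v → f u ≠ f v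

theorem Col.mono {G : SimpleGraph V} {U : Finset V} {k l : ℕ} (h : Col G U k) (hkl : k ≤ l) :
    Col G U l := by
  obtain ⟨f, h1, h2⟩ := h
  exact ⟨f, fun u hu => (h1 u hu).trans_le hkl, h2⟩

/-- Adding an independent set as a new colour class. -/
theorem Col.add {G : SimpleGraph V} {U I : Finset V} {k : ℕ} (h : Col G (U \ I) k)
    (hI : Clq Gᶜ I) : Col G U (k + 1) := by
  obtain ⟨f, h1, h2⟩ := h
  refine ⟨fun u => if u ∈ I then k else f u, ?_, ?_⟩
  · intro u hu
    by_cases hi : u ∈ I
    · simp [hi]
    · have := h1 u (Finset.mem_sdiff.mpr ⟨hu, hi⟩)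
      simp only [hi, if_false]
      omega
  · intro u hu v hv huv
    by_cases hi : u ∈ I <;> by_cases hj : v ∈ I
    · have := hI u hi v hj huv.ne
      exact absurd huv this.2
    · have := h1 v (Finset.mem_sdiff.mpr ⟨hv, hj⟩)
      simp only [hi, hj, if_true, if_false]
      omega
    · have := h1 u (Finset.mem_sdiff.mpr ⟨hu, hi⟩)
      simp only [hi, hj, if_true, if_false]
      omega
    · simp only [hi, hj, if_false]
      exact h2 u (Finset.mem_sdiff.mpr ⟨hu, hi⟩) v (Finset.mem_sdiff.mpr ⟨hv, hj⟩) huv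

/-- Perfect graphs. -/
def Perf (G : SimpleGraph V) : Prop := ∀ U : Finset V, Col G U (om G U)

/-- The condition of Lovasz. -/
def Lov (G : SimpleGraph V) : Prop := ∀ U : Finset V, U.card ≤ om Gᶜ U * om G U

theorem lov_of_perf {G : SimpleGraph V} (h : Perf G) : Lov G := by
  intro U
  obtain ⟨f, h1, h2⟩ := h U
  have h3 : U.card ≤ om Gᶜ U * (Finset.range (om G U)).card := by
    apply Finset.card_le_mul_card_image_of_maps_to (f := f)
    · intro u hu
      exact Finset.mem_range.mpr (h1 u hu)
    · intro j _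
      apply card_le_om
      · intro x hx y hy hxy
        obtain ⟨hx1, hx2⟩ := Finset.mem_filter.mp hx
        obtain ⟨hy1, hy2⟩ := Finset.mem_filter.mp hy
        rw [SimpleGraph.compl_adj]
        exact ⟨hxy, fun h => h2 x hx1 y hy1 h (hx2.trans hy2.symm)⟩
      · exact Finset.filter_subset _ _
  rw [Finset.card_range] at h3
  exact h3

/-- A clique and an independent set meet in at most one vertex. -/
theorem card_inter_le {G : SimpleGraph V} {K A : Finset V} (hK : Clq G K) (hA : Clq Gᶜ A) :
    (K ∩ A).card ≤ 1 := by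
  rw [Finset.card_le_one]
  intro a ha b hb
  by_contra hab
  obtain ⟨ha1, ha2⟩ := Finset.mem_inter.mp ha
  obtain ⟨hb1, hb2⟩ := Finset.mem_inter.mp hb
  exact (hA a ha2 b hb2 hab).2 (hK a ha1 b hb1 hab)

/-- The linear algebra step. -/
theorem card_le_of_matrix {ι : Type} [Fintype ι] [DecidableEq ι] (U : Finset V)
    (A K : ι → Finset V) (hAU : ∀ i, K i ⊆ U) (h0 : ∀ i, (K i ∩ A i).card = 0)
    (h1 : ∀ i j, i ≠ j → (K i ∩ A j).card = 1) (hι : 2 ≤ Fintype.card ι) :
    Fintype.card ι ≤ U.card := by
  classical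
  let x : ι → (U → ℚ) := fun i u => if (u : V) ∈ A i then 1 else 0
  have hli : LinearIndependent ℚ x := by
    rw [Fintype.linearIndependent_iff]
    intro c hc
    have key : ∀ i, ∑ j, c j * ((K i ∩ A j).card : ℚ) = 0 := by
      intro i
      have h2 : ∀ j, ((K i ∩ A j).card : ℚ) = ∑ u ∈ U.attach, if (u : V) ∈ K i then x j u else 0 := by
        intro j
        rw [Finset.sum_attach U (fun u => if u ∈ K i then (if u ∈ A j then (1 : ℚ) else 0) else 0)]
        rw [← Finset.sum_filter, ← Finset.sum_filter, Finset.sum_const, nsmul_eq_mul, mul_one]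
        congr 2
        ext u
        simp only [Finset.mem_inter, Finset.mem_filter]
        constructor
        · rintro ⟨h3, h4⟩
          exact ⟨⟨hAU i h3, h3⟩, h4⟩
        · rintro ⟨⟨_, h3⟩, h4⟩
          exact ⟨h3, h4⟩
      calc ∑ j, c j * ((K i ∩ A j).card : ℚ)
          = ∑ j, ∑ u ∈ U.attach, if (u : V) ∈ K i then c j * x j u else 0 := by
            refine Finset.sum_congr rfl fun j _ => ?_
            rw [h2 j, Finset.mul_sum]
            refine Finset.sum_congr rfl fun u _ => ?_
            split_ifs <;> simp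
        _ = ∑ u ∈ U.attach, ∑ j, if (u : V) ∈ K i then c j * x j u else 0 := Finset.sum_comm
        _ = ∑ u ∈ U.attach, if (u : V) ∈ K i then (∑ j, c j • x j) u else 0 := by
            refine Finset.sum_congr rfl fun u _ => ?_
            split_ifs
            · simp [Finset.sum_apply]
            · simp
        _ = 0 := by
            rw [hc]
            simp
    have hS : ∀ i, c i = ∑ j, c j := by
      intro i
      have h3 := key i
      rw [← Finset.add_sum_erase _ _ (Finset.mem_univ i), h0 i] at h3
      rw [← Finset.add_sum_erase Finset.univ c (Finset.mem_univ i)]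
      have h4 : ∑ j ∈ Finset.univ.erase i, c j * ((K i ∩ A j).card : ℚ) =
          ∑ j ∈ Finset.univ.erase i, c j := by
        refine Finset.sum_congr rfl fun j hj => ?_
        rw [h1 i j (Finset.ne_of_mem_erase hj).symm]
        simp
      rw [h4] at h3
      simp only [Nat.cast_zero, mul_zero, zero_add] at h3
      rw [h3, add_zero]
    have hS0 : ∑ j, c j = 0 := by
      have h5 : ∑ j, c j = (Fintype.card ι : ℚ) * ∑ j, c j := by
        conv_lhs => rw [Finset.sum_congr rfl (fun j _ => hS j)]
        rw [Finset.sum_const, Finset.card_univ, nsmul_eq_mul]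
      have h6 : ((Fintype.card ι : ℚ) - 1) * ∑ j, c j = 0 := by linarith
      rcases mul_eq_zero.mp h6 with h7 | h7
      · have : (2 : ℚ) ≤ Fintype.card ι := by exact_mod_cast hι
        linarith
      · exact h7
    intro i
    rw [hS i, hS0]
  have h8 := hli.fintype_card_le_finrank
  rwa [Module.finrank_fintype_fun_eq_card, Fintype.card_coe] at h8

/-- Sets of full size under an injective map to `Fin k` reach every value. -/
theorem meets {f : V → ℕ} {K : Finset V} {k : ℕ} (hf : ∀ u ∈ K, f u < k)
    (hinj : ∀ u ∈ K, ∀ v ∈ K, f u = f v → u = v) (hK : K.card = k) (j : ℕ) (hj : j < k) :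
    ∃ u ∈ K, f u = j := by
  have h1 : K.image f = Finset.range k := by
    apply Finset.eq_of_subset_of_card_le
    · intro y hy
      obtain ⟨u, hu, rfl⟩ := Finset.mem_image.mp hy
      exact Finset.mem_range.mpr (hf u hu)
    · rw [Finset.card_range, Finset.card_image_of_injOn (fun u hu v hv h => hinj u hu v hv h), hK]
  have h2 : j ∈ K.image f := by
    rw [h1]
    exact Finset.mem_range.mpr hj
  obtain ⟨u, hu, h⟩ := Finset.mem_image.mp h2
  exact ⟨u, hu, h⟩

/-- Sets of size one less miss at most one value. -/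
theorem misses {f : V → ℕ} {K : Finset V} {k : ℕ} (hf : ∀ u ∈ K, f u < k)
    (hinj : ∀ u ∈ K, ∀ v ∈ K, f u = f v → u = v) (hK : K.card + 1 = k) (i j : ℕ) (hi : i < k)
    (hj : j < k) (h1 : ∀ u ∈ K, f u ≠ i) (h2 : ∀ u ∈ K, f u ≠ j) : i = j := by
  by_contra hij
  have h3 : insert i (insert j (K.image f)) ⊆ Finset.range k := by
    intro y hy
    rw [Finset.mem_insert, Finset.mem_insert, Finset.mem_image] at hy
    rcases hy with rfl | rfl | ⟨u, hu, rfl⟩
    · exact Finset.mem_range.mpr hi
    · exact Finset.mem_range.mpr hj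
    · exact Finset.mem_range.mpr (hf u hu)
  have h4 := Finset.card_le_card h3
  rw [Finset.card_insert_of_notMem, Finset.card_insert_of_notMem, Finset.card_range,
    Finset.card_image_of_injOn (fun u hu v hv h => hinj u hu v hv h)] at h4
  · omega
  · rw [Finset.mem_image]
    rintro ⟨u, hu, h⟩
    exact h2 u hu h
  · rw [Finset.mem_insert, Finset.mem_image]
    rintro (h | ⟨u, hu, h⟩)
    · exact hij h
    · exact h1 u hu h

/-- The theorem of Lovasz. -/
theorem perf_of_lov {G : SimpleGraph V} (hL : Lov G) : Perf G := by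
  classical
  intro U
  induction U using Finset.strongInduction with
  | H U ih =>
  by_contra hU
  have hne : U.Nonempty := by
    rw [Finset.nonempty_iff_ne_empty]
    rintro rfl
    exact hU ⟨fun _ => 0, by simp, by simp⟩
  set ω := om G U with hω
  have hω1 : 1 ≤ ω := om_pos G hne
  -- removing a nonempty independent set does not change the clique number
  have hrem : ∀ I : Finset V, Clq Gᶜ I → I ⊆ U → I.Nonempty → om G (U \ I) = ω := by
    intro I hI hIU hIne
    have hss : U \ I ⊂ U := by
      refine Finset.sdiff_ssubset hIU hIne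
    apply le_antisymm (om_mono G Finset.sdiff_subset)
    by_contra hlt
    push Not at hlt
    have h1 := (ih _ hss).add hI
    exact hU (h1.mono hlt)
  obtain ⟨A0, hA0, hA0U, hA0c⟩ := exists_om Gᶜ U
  set α := om Gᶜ U with hα
  have hα1 : 1 ≤ α := om_pos Gᶜ hne
  have hA0ne : A0.Nonempty := Finset.card_pos.mp (by omega)
  -- colourings of `U` minus one vertex
  have hcol : ∀ v : V, ∃ f : V → ℕ, v ∈ A0 → (∀ u ∈ U.erase v, f u < ω) ∧
      ∀ u ∈ U.erase v, ∀ w ∈ U.erase v, G.Adj u w → f u ≠ f w := by
    intro v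
    by_cases hv : v ∈ A0
    · have hss : U.erase v ⊂ U := Finset.erase_ssubset (hA0U hv)
      obtain ⟨f, h1, h2⟩ := (ih _ hss).mono (om_mono G (Finset.erase_subset v U))
      exact ⟨f, fun _ => ⟨h1, h2⟩⟩
    · exact ⟨fun _ => 0, fun h => absurd h hv⟩
  choose f hf using hcol
  let A : Option (A0 × Fin ω) → Finset V := fun i => match i with
    | none => A0
    | some (v, j) => (U.erase (v : V)).filter (fun u => f v u = j)
  have hAU : ∀ i, A i ⊆ U := by
    intro i
    rcases i with _ | ⟨v, j⟩
    · exact hA0U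
    · exact (Finset.filter_subset _ _).trans (Finset.erase_subset _ _)
  have hAI : ∀ i, Clq Gᶜ (A i) := by
    intro i
    rcases i with _ | ⟨v, j⟩
    · exact hA0
    · intro x hx y hy hxy
      obtain ⟨hx1, hx2⟩ := Finset.mem_filter.mp hx
      obtain ⟨hy1, hy2⟩ := Finset.mem_filter.mp hy
      rw [SimpleGraph.compl_adj]
      exact ⟨hxy, fun h => (hf v v.2).2 x hx1 y hy1 h (hx2.trans hy2.symm)⟩
  have hKex : ∀ i, ∃ K, Clq G K ∧ K ⊆ U \ A i ∧ K.card = ω := by
    intro i
    obtain ⟨K, h1, h2, h3⟩ := exists_om G (U \ A i)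
    refine ⟨K, h1, h2, ?_⟩
    rw [h3]
    rcases (A i).eq_empty_or_nonempty with h | h
    · rw [h, Finset.sdiff_empty]
    · exact hrem _ (hAI i) (hAU i) h
  choose K hK1 hK2 hK3 using hKex
  have hKU : ∀ i, K i ⊆ U := fun i => (hK2 i).trans Finset.sdiff_subset
  -- a full clique misses at most one set
  have hmiss : ∀ L : Finset V, Clq G L → L ⊆ U → L.card = ω → ∀ i j, L ∩ A i = ∅ → L ∩ A j = ∅ →
      i = j := by
    intro L hL1 hL2 hL3 i j hi hj
    -- for `v ∈ A0 \ L` all classes of `f v` are met
    have hall : ∀ v : A0, (v : V) ∉ L → ∀ t : Fin ω, L ∩ A (some (v, t)) ≠ ∅ := by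
      intro v hv t
      have hLe : ∀ u ∈ L, u ∈ U.erase (v : V) := by
        intro u hu
        refine Finset.mem_erase.mpr ⟨?_, hL2 hu⟩
        rintro rfl
        exact hv hu
      obtain ⟨u, hu, hut⟩ := meets (f := f v) (K := L) (k := ω)
        (fun u hu => (hf v v.2).1 u (hLe u hu))
        (fun u hu w hw h => by
          by_contra hne'
          exact (hf v v.2).2 u (hLe u hu) w (hLe w hw) (hL1 u hu w hw hne') h) hL3 t t.2
      intro h
      have : u ∈ L ∩ A (some (v, t)) :=
        Finset.mem_inter.mpr ⟨hu, Finset.mem_filter.mpr ⟨hLe u hu, hut⟩⟩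
      rw [h] at this
      exact Finset.notMem_empty u this
    have hone := card_inter_le hL1 hA0
    rcases i with _ | ⟨v, s⟩ <;> rcases j with _ | ⟨w, t⟩
    · rfl
    · exfalso
      by_cases hw : (w : V) ∈ L
      · have : (w : V) ∈ L ∩ A none := Finset.mem_inter.mpr ⟨hw, w.2⟩
        rw [hi] at this
        exact Finset.notMem_empty _ this
      · exact hall w hw t hj
    · exfalso
      by_cases hv : (v : V) ∈ L
      · have : (v : V) ∈ L ∩ A none := Finset.mem_inter.mpr ⟨hv, v.2⟩
        rw [hj] at this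
        exact Finset.notMem_empty _ this
      · exact hall v hv s hi
    · have hv : (v : V) ∈ L := by
        by_contra hv
        exact hall v hv s hi
      have hw : (w : V) ∈ L := by
        by_contra hw
        exact hall w hw t hj
      have hvw : v = w := by
        apply Subtype.ext
        exact Finset.card_le_one.mp hone v (Finset.mem_inter.mpr ⟨hv, v.2⟩) w
          (Finset.mem_inter.mpr ⟨hw, w.2⟩)
      subst hvw
      have hLe : ∀ u ∈ L.erase (v : V), u ∈ U.erase (v : V) := by
        intro u hu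
        exact Finset.mem_erase.mpr ⟨(Finset.mem_erase.mp hu).1, hL2 (Finset.mem_erase.mp hu).2⟩
      have hst : (s : ℕ) = t := by
        apply misses (f := f v) (K := L.erase (v : V)) (k := ω)
          (fun u hu => (hf v v.2).1 u (hLe u hu)) _ _ s t s.2 t.2
        · intro u hu h
          have : u ∈ L ∩ A (some (v, s)) := Finset.mem_inter.mpr
            ⟨(Finset.mem_erase.mp hu).2, Finset.mem_filter.mpr ⟨hLe u hu, h⟩⟩
          rw [hi] at this
          exact Finset.notMem_empty u this
        · intro u hu h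
          have : u ∈ L ∩ A (some (v, t)) := Finset.mem_inter.mpr
            ⟨(Finset.mem_erase.mp hu).2, Finset.mem_filter.mpr ⟨hLe u hu, h⟩⟩
          rw [hj] at this
          exact Finset.notMem_empty u this
        · intro u hu w' hw' h
          by_contra hne'
          exact (hf v v.2).2 u (hLe u hu) w' (hLe w' hw')
            (hL1 u (Finset.mem_erase.mp hu).2 w' (Finset.mem_erase.mp hw').2 hne') h
        · rw [Finset.card_erase_of_mem hv, hL3]
          omega
      rw [Fin.ext hst]
  have h0 : ∀ i, (K i ∩ A i).card = 0 := by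
    intro i
    rw [Finset.card_eq_zero, ← Finset.disjoint_iff_inter_eq_empty]
    exact Finset.disjoint_of_subset_left (hK2 i) Finset.sdiff_disjoint
  have h1 : ∀ i j, i ≠ j → (K i ∩ A j).card = 1 := by
    intro i j hij
    have h2 := card_inter_le (hK1 i) (hAI j)
    have h3 : (K i ∩ A j).card ≠ 0 := by
      intro h
      exact hij (hmiss (K i) (hK1 i) (hKU i) (hK3 i) i j (Finset.card_eq_zero.mp (h0 i))
        (Finset.card_eq_zero.mp h))
    omega
  have hcard : Fintype.card (Option (A0 × Fin ω)) = α * ω + 1 := by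
    rw [Fintype.card_option, Fintype.card_prod, Fintype.card_coe, Fintype.card_fin, hA0c]
  have h5 := card_le_of_matrix U A K hKU h0 h1 (by
    rw [hcard]
    have := Nat.mul_le_mul hα1 hω1
    omega)
  rw [hcard] at h5
  have h6 := hL U
  rw [← hα, ← hω] at h6
  omega

/-- The weak perfect graph theorem. -/
theorem perf_compl {G : SimpleGraph V} (h : Perf G) : Perf Gᶜ := by
  apply perf_of_lov
  intro U
  have h1 := lov_of_perf h U
  rw [compl_compl, mul_comm]
  exact h1

end Pool.Agent.Lib.P5135s
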